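import Pool.Agent.K4H25.FH.Spec

/-!
Fractional Gaussian noise, `1/2 < H < 1`: signs of the kernels `gam`, `dlt`, `phi`.
-/

set_option autoImplicit false

namespace Pool.Agent.K4H25.FH

open Finset

namespace P1

/-- forward difference -/
def D (F : ℝ → ℝ) (x : ℝ) : ℝ := F (x + 1) - F x

lemma hD {F F' : ℝ → ℝ} (h : ∀ x, 0 < x → HasDerivAt F (F' x) x) : 
    ∀ x, 0 < x → HasDerivAt (D F) (D F' x) x := by
  intro x hx
  have h1 := (h (x + 1) (by linarith)).comp_add_const x 1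
  exact h1.sub (h x hx)

lemma negD0 {F F' : ℝ → ℝ} (h : ∀ x, 0 < x → HasDerivAt F (F' x) x) (hc : ContinuousOn F (Set.Ici 0))
    (hn : ∀ x, 0 < x → F' x < 0) : ∀ x, 0 ≤ x → D F x < 0 := by
  have hs : StrictAntiOn F (Set.Ici 0) := by
    refine strictAntiOn_of_deriv_neg (convex_Ici 0) hc fun x hx => ?_
    rw [interior_Ici] at hx
    rw [(h x hx).deriv]
    exact hn x hx
  intro x hx
  have := hs (Set.mem_Ici.2 hx) (Set.mem_Ici.2 (by linarith : (0:ℝ) ≤ x + 1)) (by linarith)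
  unfold D
  linarith

lemma negD {F F' : ℝ → ℝ} (h : ∀ x, 0 < x → HasDerivAt F (F' x) x) 
    (hn : ∀ x, 0 < x → F' x < 0) : ∀ x, 0 < x → D F x < 0 := by
  have hs : StrictAntiOn F (Set.Ioi 0) := by
    refine strictAntiOn_of_deriv_neg (convex_Ioi 0) 
      (fun x hx => (h x hx).continuousAt.continuousWithinAt) fun x hx => ?_
    rw [interior_Ioi] at hx
    rw [(h x hx).deriv]
    exact hn x hx
  intro x hx
  have := hs (Set.mem_Ioi.2 hx) (Set.mem_Ioi.2 (by linarith : (0:ℝ) < x + 1)) (by linarith)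
  unfold D
  linarith

lemma posD {F F' : ℝ → ℝ} (h : ∀ x, 0 < x → HasDerivAt F (F' x) x) 
    (hn : ∀ x, 0 < x → 0 < F' x) : ∀ x, 0 < x → 0 < D F x := by
  intro x hx
  have h1 := negD (F := fun x => - F x) (F' := fun x => - F' x) (fun x hx => (h x hx).neg) 
    (fun x hx => by have := hn x hx; linarith) x hx
  unfold D at h1 ⊢
  linarith

lemma posD0 {F F' : ℝ → ℝ} (h : ∀ x, 0 < x → HasDerivAt F (F' x) x) (hc : ContinuousOn F (Set.Ici 0))
    (hn : ∀ x, 0 < x → 0 < F' x) : ∀ x, 0 ≤ x → 0 < D F x := by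
  intro x hx
  have h1 := negD0 (F := fun x => - F x) (F' := fun x => - F' x) (fun x hx => (h x hx).neg) hc.neg
    (fun x hx => by have := hn x hx; linarith) x hx
  unfold D at h1 ⊢
  linarith

lemma cD {F : ℝ → ℝ} (hc : ContinuousOn F (Set.Ici 0)) : ContinuousOn (D F) (Set.Ici 0) := by
  refine ContinuousOn.sub (hc.comp (continuous_id.add continuous_const).continuousOn ?_) hc
  intro x hx
  simp only [Set.mem_Ici, id] at hx ⊢
  linarith

/-- `c x^p` -/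
noncomputable def pw (c p x : ℝ) : ℝ := c * x ^ p

lemma hpw (c p : ℝ) : ∀ x : ℝ, 0 < x → HasDerivAt (pw c p) (pw (c * p) (p - 1) x) x := by
  intro x hx
  have h := (Real.hasDerivAt_rpow_const (p := p) (Or.inl hx.ne')).const_mul c
  unfold pw
  rw [mul_assoc]
  exact h

lemma cpw {p : ℝ} (c : ℝ) (hp : 0 < p) : ContinuousOn (pw c p) (Set.Ici 0) := by
  unfold pw
  exact (continuous_const.mul (Real.continuous_rpow_const hp.le)).continuousOn

lemma pw_dec {c p : ℝ} (hc : 0 < c) (hp : p < 0) : ∀ x : ℝ, 0 < x → D (pw c p) x < 0 := by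
  intro x hx
  have := Real.rpow_lt_rpow_of_neg hx (by linarith : x < x + 1) hp
  unfold D pw
  nlinarith

lemma pw_inc {c p : ℝ} (hc : c < 0) (hp : p < 0) : ∀ x : ℝ, 0 < x → 0 < D (pw c p) x := by
  intro x hx
  have := Real.rpow_lt_rpow_of_neg hx (by linarith : x < x + 1) hp
  unfold D pw
  nlinarith

lemma pw_inc' {c p : ℝ} (hc : 0 < c) (hp : 0 < p) : ∀ x : ℝ, 0 < x → 0 < D (pw c p) x := by
  intro x hx
  have := Real.rpow_lt_rpow hx.le (by linarith : x < x + 1) hp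
  unfold D pw
  nlinarith

variable {s : ℝ}

lemma d2 (h : 1 < s) : ∀ x : ℝ, 0 ≤ x → 0 < D (D (pw 1 s)) x := 
  posD0 (hD (hpw 1 s)) (cD (cpw 1 (by linarith))) 
    (pw_inc' (by linarith) (by linarith))

lemma d3 (h : 1 < s) (h1 : s < 2) : ∀ x : ℝ, 0 ≤ x → D (D (D (pw 1 s))) x < 0 := 
  negD0 (hD (hD (hpw 1 s))) (cD (cD (cpw 1 (by linarith)))) 
    (negD (hD (hpw _ _)) (pw_dec (by nlinarith) (by linarith)))

lemma d4 (h : 1 < s) (h1 : s < 2) : ∀ x : ℝ, 0 ≤ x → 0 < D (D (D (D (pw 1 s)))) x := 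
  posD0 (hD (hD (hD (hpw 1 s)))) (cD (cD (cD (cpw 1 (by linarith))))) 
    (posD (hD (hD (hpw _ _))) (posD (hD (hpw _ _)) (pw_inc (by nlinarith [mul_pos (by linarith : (0:ℝ) < s) (by linarith : (0:ℝ) < s - 1)]) (by linarith))))

end P1

open P1

variable {H : ℝ}

theorem gam_neg' (j : ℤ) : gam H (-j) = gam H j := by
  unfold gam
  push_cast
  have h1 : |(-(j : ℝ)) + 1| = |(j : ℝ) - 1| := by rw [← abs_neg]; congr 1; ring
  have h2 : |(-(j : ℝ)) - 1| = |(j : ℝ) + 1| := by rw [← abs_neg]; congr 1; ring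
  rw [h1, h2, abs_neg]
  ring

theorem gam_succ (m : ℕ) : gam H ((m : ℤ) + 1) = D (D (pw 1 (2 * H))) m / 2 := by
  unfold gam D pw
  have hm : (0 : ℝ) ≤ m := Nat.cast_nonneg m
  push_cast
  rw [abs_of_nonneg (by linarith : (0:ℝ) ≤ (m:ℝ) + 1 + 1), abs_of_nonneg (by linarith : (0:ℝ) ≤ (m:ℝ) + 1),
    add_sub_cancel_right, abs_of_nonneg hm]
  ring

theorem gam_zero (h : 1 / 2 < H) : gam H 0 = 1 := by
  unfold gam
  push_cast
  rw [zero_add, zero_sub, abs_neg, abs_one, abs_zero, Real.zero_rpow (by linarith), Real.one_rpow]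
  ring

theorem gam_nonneg (h : 1 / 2 < H) (h1 : H < 1) (j : ℤ) : 0 ≤ gam H j := by
  have key : ∀ m : ℕ, 0 ≤ gam H (m : ℤ) := by
    intro m
    rcases m with _ | m
    · have := gam_zero h
      push_cast
      rw [this]; norm_num
    · push_cast
      rw [gam_succ]
      have := d2 (by linarith : 1 < 2 * H) m (Nat.cast_nonneg m)
      linarith
  rcases Int.eq_nat_or_neg j with ⟨m, rfl | rfl⟩
  · exact key m
  · rw [gam_neg']; exact key m

theorem phi_succ (m : ℕ) : phi H (m + 1) = - D (D (D (pw 1 (2 * H)))) m / 2 := by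
  unfold phi
  have h1 := gam_succ (H := H) m
  have h2 := gam_succ (H := H) (m + 1)
  push_cast at h1 h2 ⊢
  rw [h1, h2]
  show _ = -(D (D (pw 1 (2 * H))) ((m : ℝ) + 1) - D (D (pw 1 (2 * H))) m) / 2
  ring

theorem gam_one (h : 1 / 2 < H) : gam H 1 = (2 ^ (2 * H) - 2) / 2 := by
  unfold gam
  push_cast
  rw [abs_one, sub_self, abs_zero, Real.one_rpow, Real.zero_rpow (by linarith)]
  have : |(1 : ℝ) + 1| = 2 := by norm_num
  rw [this]
  ring

theorem gam_two : gam H 2 = (3 ^ (2 * H) - 2 * 2 ^ (2 * H) + 1) / 2 := by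
  unfold gam
  push_cast
  have h1 : |(2 : ℝ) + 1| = 3 := by norm_num
  have h2 : |(2 : ℝ) - 1| = 1 := by norm_num
  have h3 : |(2 : ℝ)| = 2 := by norm_num
  rw [h1, h2, h3, Real.one_rpow]

theorem two_rpow_lt {s : ℝ} (h : s < 2) : (2 : ℝ) ^ s < 4 := by
  have h1 : (2 : ℝ) ^ s < 2 ^ (2 : ℝ) := Real.rpow_lt_rpow_of_exponent_lt (by norm_num) h
  have h2 : (2 : ℝ) ^ (2 : ℝ) = 4 := by
    rw [show (2 : ℝ) = ((2 : ℕ) : ℝ) by norm_num, Real.rpow_natCast]; norm_num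
  linarith

theorem key2 {s : ℝ} (h : s < 2) : 4 * (2 : ℝ) ^ s < 3 ^ s + 7 := by
  obtain ⟨θ, hθ⟩ : ∃ θ : ℝ, θ = Real.logb 3 2 := ⟨_, rfl⟩
  have e1 : (3 : ℝ) ^ θ = 2 := by
    rw [hθ]; exact Real.rpow_logb (by norm_num) (by norm_num) (by norm_num)
  have hθ1 : 9 / 16 < θ := by
    rw [hθ, Real.lt_logb_iff_rpow_lt (by norm_num) (by norm_num)]
    refine lt_of_pow_lt_pow_left₀ 16 (by norm_num) ?_
    rw [← Real.rpow_natCast, ← Real.rpow_mul (by norm_num)]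
    have : (9 / 16 : ℝ) * ((16 : ℕ) : ℝ) = ((9 : ℕ) : ℝ) := by norm_num
    rw [this, Real.rpow_natCast]
    norm_num
  have hθ2 : θ ≤ 1 := by
    rw [hθ]
    have : Real.logb 3 2 < Real.logb 3 3 := Real.logb_lt_logb (by norm_num) (by norm_num) (by norm_num)
    rw [Real.logb_self_eq_one (by norm_num)] at this
    exact this.le
  obtain ⟨u, hu⟩ : ∃ u : ℝ, u = (3 : ℝ) ^ (s - 2) := ⟨_, rfl⟩
  have hu0 : 0 < u := by rw [hu]; positivity
  have hu1 : u < 1 := by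
    rw [hu]; exact Real.rpow_lt_one_of_one_lt_of_neg (by norm_num) (by linarith)
  have e2 : (2 : ℝ) ^ (s - 2) = u ^ θ := by
    have h0 : (2 : ℝ) ^ (s - 2) = ((3 : ℝ) ^ θ) ^ (s - 2) := by rw [e1]
    rw [hu, h0, ← Real.rpow_mul (by norm_num), ← Real.rpow_mul (by norm_num), mul_comm]
  have e3 : u ^ θ ≤ 1 + θ * (u - 1) := by
    have := rpow_one_add_le_one_add_mul_self (s := u - 1) (by linarith) (p := θ) (by linarith) hθ2
    rwa [add_sub_cancel] at this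
  have e4 : (2 : ℝ) ^ s = 4 * 2 ^ (s - 2) := by
    have h2 : (2 : ℝ) ^ (2 : ℝ) = 4 := by
      rw [show (2 : ℝ) = ((2 : ℕ) : ℝ) by norm_num, Real.rpow_natCast]; norm_num
    have : (2 : ℝ) ^ s = 2 ^ (2 : ℝ) * 2 ^ (s - 2) := by
      rw [← Real.rpow_add (by norm_num)]; congr 1; ring
    rw [this, h2]
  have e5 : (3 : ℝ) ^ s = 9 * u := by
    have h2 : (3 : ℝ) ^ (2 : ℝ) = 9 := by
      rw [show (2 : ℝ) = ((2 : ℕ) : ℝ) by norm_num, Real.rpow_natCast]; norm_num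
    have : (3 : ℝ) ^ s = 3 ^ (2 : ℝ) * 3 ^ (s - 2) := by
      rw [← Real.rpow_add (by norm_num)]; congr 1; ring
    rw [this, h2, hu]
  rw [e4, e5, e2]
  nlinarith [mul_pos (by linarith : (0:ℝ) < θ - 9 / 16) (by linarith : (0:ℝ) < 1 - u)]

theorem phi_zero (h : 1 / 2 < H) : phi H 0 = 2 - 2 ^ (2 * H) / 2 := by
  unfold phi
  have e : ((0 : ℕ) : ℤ) + 1 = 1 := rfl
  have e' : ((0 : ℕ) : ℤ) = 0 := rfl
  rw [e, e', gam_zero h, gam_one h]
  ring

theorem phi_pos {H : ℝ} (h : 1 / 2 < H) (h1 : H < 1) (n : ℕ) : 0 < phi H n := by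
  rcases n with _ | m
  · rw [phi_zero h]
    have := two_rpow_lt (by linarith : 2 * H < 2)
    linarith
  · rw [phi_succ]
    have := d3 (by linarith : 1 < 2 * H) (by linarith) m (Nat.cast_nonneg m)
    linarith

theorem dlt_succ (n : ℕ) : dlt H ((n : ℤ) + 1) = phi H (n + 1) - phi H n := by
  unfold dlt phi
  push_cast
  rw [add_sub_cancel_right]
  ring

theorem dlt_neg' (j : ℤ) : dlt H (-j) = dlt H j := by
  unfold dlt
  have h1 : -j + 1 = -(j - 1) := by ring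
  have h2 : -j - 1 = -(j + 1) := by ring
  rw [h1, h2, gam_neg', gam_neg', gam_neg']
  ring

theorem dlt_one_neg {H : ℝ} (h : 1 / 2 < H) (h1 : H < 1) : dlt H 1 < 0 := by
  unfold dlt
  have e : (1 : ℤ) + 1 = 2 := rfl
  have e' : (1 : ℤ) - 1 = 0 := rfl
  rw [e, e', gam_zero h, gam_one h, gam_two]
  have := key2 (by linarith : 2 * H < 2)
  linarith

theorem dlt_nonpos {H : ℝ} (h : 1 / 2 < H) (h1 : H < 1) {j : ℤ} (hj : j ≠ 0) : dlt H j ≤ 0 := by
  have key : ∀ n : ℕ, dlt H ((n : ℤ) + 1) ≤ 0 := by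
    intro n
    rcases n with _ | m
    · have := dlt_one_neg h h1
      have e : ((0 : ℕ) : ℤ) + 1 = 1 := rfl
      rw [e]
      exact this.le
    · rw [dlt_succ, phi_succ, phi_succ]
      have h4 := d4 (by linarith : 1 < 2 * H) (by linarith) m (Nat.cast_nonneg m)
      have e : D (D (D (D (pw 1 (2 * H))))) m = 
        D (D (D (pw 1 (2 * H)))) ((m : ℝ) + 1) - D (D (D (pw 1 (2 * H)))) m := rfl
      rw [e] at h4
      push_cast
      linarith
  rcases lt_trichotomy j 0 with hj1 | hj1 | hj1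
  · obtain ⟨n, hn⟩ : ∃ n : ℕ, -j = (n : ℤ) + 1 := ⟨(-j - 1).toNat, by omega⟩
    rw [← dlt_neg', hn]
    exact key n
  · exact absurd hj1 hj
  · obtain ⟨n, hn⟩ : ∃ n : ℕ, j = (n : ℤ) + 1 := ⟨(j - 1).toNat, by omega⟩
    rw [hn]
    exact key n

theorem row {H : ℝ} (i n : ℕ) : 
    ∑ m ∈ range (i + n + 1), dlt H ((i : ℤ) - (m : ℤ)) = phi H i + phi H n := by
  have h1 : ∀ m : ℕ, dlt H ((i : ℤ) - (m : ℤ)) = 
      (fun m : ℕ => gam H ((i : ℤ) - m) - gam H ((i : ℤ) - m + 1)) m - 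
      (fun m : ℕ => gam H ((i : ℤ) - m) - gam H ((i : ℤ) - m + 1)) (m + 1) := by
    intro m
    simp only [dlt]
    push_cast
    have e1 : (i : ℤ) - (m + 1) + 1 = i - m := by ring
    have e2 : (i : ℤ) - (m + 1) = i - m - 1 := by ring
    rw [e1, e2]
    ring
  rw [Finset.sum_congr rfl (fun m _ => h1 m), Finset.sum_range_sub']
  unfold phi
  push_cast
  have e1 : (i : ℤ) - (i + n + 1) = -((n : ℤ) + 1) := by ring
  have e2 : -((n : ℤ) + 1) + 1 = -(n : ℤ) := by ring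
  rw [e1, e2, gam_neg', gam_neg', sub_zero]
  ring

end Pool.Agent.K4H25.FH
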